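import Mathlib
import Pool.Agent.H64.OrdDefs
import Pool.Agent.H64.Kok2

set_option autoImplicit false

namespace Pool.Agent.Results.MP_fb8dd6_al.Counter
open Pool.Agent.H64.OrdDefs

theorem result : ∃ (G : Type) (_ : Group G) (I : Type) (fam : I → Subgroup G) (H : Subgroup G),
    (∃ o : LinearOrder G, BiInv o) ∧ (∀ i, RelConvex (fam i)) ∧
    (H : Set G) = ⋃ i, (fam i : Set G) ∧ H.Normal ∧
    (∀ g : G, (H : Set G) ⊆ (fun h => g⁻¹ * h * g) '' H ∨ (fun h => g⁻¹ * h * g) '' H ⊆ (H : Set G)) ∧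
    ¬ RelConvex H := by
  obtain ⟨G, _, H, hn, ho, h1, h2⟩ := Pool.Agent.H64.Kok.final
  refine ⟨G, inferInstance, {N : Subgroup G // RelConvex N ∧ N ≤ H}, fun N => N.1, H, ho,
    fun N => N.2.1, ?_, hn, fun g => Or.inr ?_, h2⟩
  · ext h
    simp only [Set.mem_iUnion, SetLike.mem_coe]
    constructor
    · intro hh
      obtain ⟨N, a, b, c⟩ := h1 h hh
      exact ⟨⟨N, a, b⟩, c⟩
    · rintro ⟨N, hN⟩
      exact N.2.2 hN
  · rintro _ ⟨h, hh, rfl⟩
    exact hn.conj_mem' h hh g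

end Pool.Agent.Results.MP_fb8dd6_al.Counter
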